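import Pool.Agent.X128.SK.Lim

/-!
# The limit argument
-/

set_option autoImplicit false

namespace Pool.Agent.X128.SK

open CategoryTheory CategoryTheory.Limits Set Topology Function

variable {J : Type} [PartialOrder J] [Nonempty J] [IsCodirectedOrder J]

lemma exK {X : Type} [TopologicalSpace X] [CompactSpace X] [T2Space X] {O : Set X} (hO : IsOpen O)
    {z : X} (hz : z ∈ O) : ∃ K, IsCompact K ∧ z ∈ interior K ∧ K ⊆ O :=
  exists_compact_subset hO hz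

lemma fin_open {X : Type} [TopologicalSpace X] [T2Space X] [Finite X] (U : Set X) : IsOpen U := by
  have := (Set.toFinite Uᶜ).isClosed.isOpen_compl
  rwa [compl_compl] at this

lemma map_cont {F : CompHaus.{0} ⥤ CompHaus.{0}} {X Y : CompHaus.{0}} (f : X ⟶ Y) :
    Continuous (F.map f) := (F.map f).hom.hom.continuous

lemma fin_skel {F : CompHaus.{0} ⥤ CompHaus.{0}} (hs : FinSqSkel F) {X Y : CompHaus.{0}} [Finite X]
    [Finite Y] (p : X ⟶ Y) (hp : Surjective p) {U : Set (F.obj X)} (hU : IsOpen U)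
    (hne : U.Nonempty) : ∃ V : Set (F.obj Y), IsOpen V ∧ V.Nonempty ∧ V ⊆ F.map p '' U := by
  have h1 : SkelSq p p (𝟙 X) (𝟙 Y) := by
    refine ⟨by rw [Category.id_comp, Category.comp_id], ?_⟩
    intro x U hU
    have hx : x ∈ U := mem_of_mem_nhds hU
    refine ⟨{p x}, fin_open _, singleton_nonempty _, ?_, ?_⟩
    · rintro _ rfl
      exact ⟨x, hx, rfl⟩
    · intro y hy
      have hy' : y = p x := hy
      exact ⟨x, hx, hy'.symm⟩
  obtain ⟨a, ha⟩ := hne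
  obtain ⟨_, h2⟩ := hs p p (𝟙 X) (𝟙 Y) hp hp (fun x => ⟨x, rfl⟩) (fun x => ⟨x, rfl⟩) h1
  obtain ⟨V, hV, hVne, hVU, _⟩ := h2 a U (hU.mem_nhds ha)
  exact ⟨V, hV, hVne, hVU⟩

theorem lim_arg {F : CompHaus.{0} ⥤ CompHaus.{0}} (hF : Good F) (hs : FinSqSkel F)
    (DX DY : J ⥤ CompHaus.{0}) (cX : Cone DX) (cY : Cone DY)
    (hX1 : ∀ j, Surjective (cX.π.app j))
    (hX2 : ∀ x y : cX.pt, (∀ j, cX.π.app j x = cX.π.app j y) → x = y)
    (hY1 : ∀ j, Surjective (cY.π.app j))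
    (hY2 : ∀ x y : cY.pt, (∀ j, cY.π.app j x = cY.π.app j y) → x = y)
    (fj : ∀ j, DX.obj j ⟶ DY.obj j) (f : cX.pt ⟶ cY.pt)
    (hf : ∀ j, f ≫ cY.π.app j = cX.π.app j ≫ fj j)
    (hfX : ∀ j, Finite (DX.obj j)) (hfY : ∀ j, Finite (DY.obj j)) (hfs : ∀ j, Surjective (fj j))
    (hsq : ∀ i j (h : i ≤ j), SkelSq (fj j) (fj i) (DX.map (homOfLE h)) (DY.map (homOfLE h)))
    {W : Set (F.obj cX.pt)} (hW : IsOpen W) (hWne : W.Nonempty) :
    ∃ V : Set (F.obj cY.pt), IsOpen V ∧ V.Nonempty ∧ V ⊆ F.map f '' W := by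
  obtain ⟨z, hz⟩ := hWne
  obtain ⟨j₀, O, hO, hzO, hOW⟩ := basis_F hF.cont DX cX hX1 hX2 hW hz
  obtain ⟨K, hK, hzK, hKO⟩ := exK hO hzO
  have hDX : ∀ i j (h : i ≤ j), Surjective (DX.map (homOfLE h)) := by
    intro i j h x
    obtain ⟨w, hw⟩ := hX1 j x
    refine ⟨cX.π.app i w, ?_⟩
    rw [← cX.w (homOfLE h)] at hw
    exact hw
  have hDY : ∀ i j (h : i ≤ j), Surjective (DY.map (homOfLE h)) := by
    intro i j h x
    obtain ⟨w, hw⟩ := hY1 j x
    refine ⟨cY.π.app i w, ?_⟩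
    rw [← cY.w (homOfLE h)] at hw
    exact hw
  have hFS : ∀ i j (h : i ≤ j), SkelSq (F.map (fj j)) (F.map (fj i)) (F.map (DX.map (homOfLE h)))
      (F.map (DY.map (homOfLE h))) := by
    intro i j h
    have := hfX i
    have := hfX j
    have := hfY i
    have := hfY j
    exact hs (fj j) (fj i) (DX.map (homOfLE h)) (DY.map (homOfLE h)) (hfs j) (hfs i) (hDX i j h)
      (hDY i j h) (hsq i j h)
  have hFρ : ∀ i j (h : i ≤ j) (U : Set (F.obj (DY.obj i))), IsOpen U → U.Nonempty →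
      ∃ V : Set (F.obj (DY.obj j)), IsOpen V ∧ V.Nonempty ∧ V ⊆ F.map (DY.map (homOfLE h)) '' U := by
    intro i j h U hU hne
    have := hfY i
    have := hfY j
    exact fin_skel hs _ (hDY i j h) hU hne
  have hcX : ∀ i j (h : i ≤ j) (a : F.obj cX.pt),
      F.map (DX.map (homOfLE h)) (F.map (cX.π.app i) a) = F.map (cX.π.app j) a := by
    intro i j h a
    rw [← cX.w (homOfLE h), F.map_comp]
    rfl
  have hcY : ∀ i j (h : i ≤ j) (a : F.obj cY.pt),
      F.map (DY.map (homOfLE h)) (F.map (cY.π.app i) a) = F.map (cY.π.app j) a := by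
    intro i j h a
    rw [← cY.w (homOfLE h), F.map_comp]
    rfl
  have hcf : ∀ j (a : F.obj cX.pt),
      F.map (cY.π.app j) (F.map f a) = F.map (fj j) (F.map (cX.π.app j) a) := by
    intro j a
    have h1 : F.map f ≫ F.map (cY.π.app j) = F.map (cX.π.app j) ≫ F.map (fj j) := by
      rw [← F.map_comp, ← F.map_comp, hf]
    exact congrArg (fun g => g a) h1
  have hsqc : ∀ i j (h : i ≤ j) (a : F.obj (DX.obj i)),
      F.map (DY.map (homOfLE h)) (F.map (fj i) a) = F.map (fj j) (F.map (DX.map (homOfLE h)) a) := by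
    intro i j h a
    have h1 := (hFS i j h).1
    exact (congrArg (fun g => g a) h1).symm
  set G : Set (F.obj (DY.obj j₀)) := interior (F.map (fj j₀) '' interior K) with hG
  have hGne : G.Nonempty := by
    obtain ⟨_, h2⟩ := hFS j₀ j₀ le_rfl
    obtain ⟨V, hV, ⟨v, hv⟩, hVU, _⟩ := h2 _ (interior K) (isOpen_interior.mem_nhds hzK)
    exact ⟨v, mem_interior.mpr ⟨V, hVU, hV, hv⟩⟩
  refine ⟨(F.map (cY.π.app j₀)) ⁻¹' G, isOpen_interior.preimage (map_cont _), ?_, ?_⟩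
  · obtain ⟨g, hg⟩ := hGne
    obtain ⟨b, hb⟩ := hF.epi (cY.π.app j₀) (hY1 j₀) g
    exact ⟨b, by rw [mem_preimage, hb]; exact hg⟩
  intro b hb
  -- the key claim
  have claim : ∀ i (h : i ≤ j₀), F.map (cY.π.app i) b ∈
      F.map (fj i) '' ((F.map (DX.map (homOfLE h))) ⁻¹' K) := by
    intro i h
    by_contra hcon
    have hcl : IsClosed (F.map (fj i) '' ((F.map (DX.map (homOfLE h))) ⁻¹' K)) :=
      ((hK.isClosed.preimage (map_cont _)).isCompact.image (map_cont _)).isClosed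
    set O' : Set (F.obj (DY.obj i)) := (F.map (DY.map (homOfLE h))) ⁻¹' G ∩
      (F.map (fj i) '' ((F.map (DX.map (homOfLE h))) ⁻¹' K))ᶜ with hO'
    have hO'o : IsOpen O' := (isOpen_interior.preimage (map_cont _)).inter hcl.isOpen_compl
    have hO'ne : O'.Nonempty := ⟨F.map (cY.π.app i) b, by
      rw [mem_preimage, hcY]
      exact hb, hcon⟩
    obtain ⟨G₁, hG₁, ⟨g₁, hg₁⟩, hG₁O⟩ := hFρ i j₀ h O' hO'o hO'ne
    have hG₁G : G₁ ⊆ G := by
      intro g hg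
      obtain ⟨o, ho, rfl⟩ := hG₁O hg
      exact ho.1
    obtain ⟨u, hu, hug⟩ : g₁ ∈ F.map (fj j₀) '' interior K := interior_subset (hG₁G hg₁)
    obtain ⟨_, h2⟩ := hFS i j₀ h
    obtain ⟨V₁, hV₁, ⟨v, hv⟩, hV₁U, hV₁p⟩ := h2 u (interior K ∩ (F.map (fj j₀)) ⁻¹' G₁)
      ((isOpen_interior.inter (hG₁.preimage (map_cont _))).mem_nhds ⟨hu, by
        rw [mem_preimage, hug]
        exact hg₁⟩)
    obtain ⟨w, hw, hwv⟩ := hV₁U hv
    have hvG : v ∈ G₁ := by
      rw [← hwv]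
      exact hw.2
    obtain ⟨o, ho, hov⟩ := hG₁O hvG
    have ho2 : o ∈ (F.map (DY.map (homOfLE h))) ⁻¹' V₁ := by
      rw [mem_preimage, hov]
      exact hv
    obtain ⟨w', hw', hw'o⟩ := hV₁p ho2
    have h5 : F.map (DX.map (homOfLE h)) w' ∈ K := interior_subset hw'.1
    exact ho.2 ⟨w', h5, hw'o⟩
  let T : {i : J // i ≤ j₀} → Set (F.obj cX.pt) := fun i =>
    {a | F.map (fj i.1) (F.map (cX.π.app i.1) a) = F.map (cY.π.app i.1) b} ∩
      (F.map (cX.π.app j₀)) ⁻¹' K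
  have hTcl : ∀ i, IsClosed (T i) := fun i =>
    (isClosed_eq ((map_cont _).comp (map_cont _)) continuous_const).inter
      (hK.isClosed.preimage (map_cont _))
  have _ : Nonempty {i : J // i ≤ j₀} := ⟨⟨j₀, le_rfl⟩⟩
  have hT : (⋂ i, T i).Nonempty := by
    apply IsCompact.nonempty_iInter_of_directed_nonempty_isCompact_isClosed T
    · have key : ∀ i k : {i : J // i ≤ j₀}, k.1 ≤ i.1 → T k ⊆ T i := by
        rintro i k hki a ⟨ha, ha2⟩
        refine ⟨?_, ha2⟩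
        change F.map (fj i.1) (F.map (cX.π.app i.1) a) = F.map (cY.π.app i.1) b
        rw [← hcX k.1 i.1 hki, ← hcY k.1 i.1 hki, ← hsqc]
        exact congrArg _ ha
      intro i j
      obtain ⟨k, hki, hkj⟩ := exists_le_le i.1 j.1
      exact ⟨⟨k, hki.trans i.2⟩, key i _ hki, key j _ hkj⟩
    · intro i
      obtain ⟨w, hw, hwb⟩ := claim i.1 i.2
      obtain ⟨a, ha⟩ := hF.epi (cX.π.app i.1) (hX1 i.1) w
      refine ⟨a, ?_, ?_⟩
      · change F.map (fj i.1) (F.map (cX.π.app i.1) a) = F.map (cY.π.app i.1) b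
        rw [ha, hwb]
      · rw [mem_preimage, ← hcX i.1 j₀ i.2, ha]
        exact hw
    · exact fun i => (hTcl i).isCompact
    · exact hTcl
  obtain ⟨a, ha⟩ := hT
  rw [mem_iInter] at ha
  refine ⟨a, hOW (hKO (ha ⟨j₀, le_rfl⟩).2), ?_⟩
  apply inj_F hF.cont DY cY hY1 hY2
  intro j
  obtain ⟨k, hkj, hk0⟩ := exists_le_le j j₀
  rw [← hcY k j hkj, ← hcY k j hkj, hcf]
  exact congrArg _ (ha ⟨k, hk0⟩).1

end Pool.Agent.X128.SK
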