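import Mathlib

/-!
# Functors on compacta: basic notions
-/

set_option autoImplicit false

namespace Pool.Agent.X128.SK

open CategoryTheory CategoryTheory.Limits Set Topology

/-- `f` is skeletal: preimages of nowhere dense sets are nowhere dense -/
def Skel {X Y : CompHaus.{0}} (f : X ⟶ Y) : Prop :=
  ∀ A : Set Y, IsNowhereDense A → IsNowhereDense (f ⁻¹' A)

/-- the square `f ∘ pX = pY ∘ f'` commutes and is skeletal (at every point of `X`) -/
def SkelSq {X Y X' Y' : CompHaus.{0}} (f : X ⟶ Y) (f' : X' ⟶ Y') (pX : X' ⟶ X) (pY : Y' ⟶ Y) :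
    Prop :=
  pX ≫ f = f' ≫ pY ∧ ∀ x : X, ∀ U ∈ 𝓝 x, ∃ V : Set Y, IsOpen V ∧ V.Nonempty ∧ V ⊆ f '' U ∧
    pY ⁻¹' V ⊆ f' '' (pX ⁻¹' U)

/-- the square `f ∘ pX = pY ∘ f'` is bicommutative -/
def Bicomm {X Y X' Y' : CompHaus.{0}} (f : X ⟶ Y) (f' : X' ⟶ Y') (pX : X' ⟶ X) (pY : Y' ⟶ Y) :
    Prop :=
  pX ≫ f = f' ≫ pY ∧ ∀ x : X, f' '' (pX ⁻¹' {x}) = pY ⁻¹' {f x}

/-- `F` commutes with limits of inverse spectra (indexed by directed partially ordered sets, with
surjective transition maps) -/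
def Cont (F : CompHaus.{0} ⥤ CompHaus.{0}) : Prop :=
  ∀ (J : Type) [PartialOrder J] [Nonempty J] [IsCodirectedOrder J] (D : J ⥤ CompHaus.{0})
    (c : Cone D), (∀ (i j : J) (h : i ⟶ j), Function.Surjective (D.map h)) →
      Nonempty (IsLimit c) → Nonempty (IsLimit (F.mapCone c))

/-- the properties of a normal functor which are used: monomorphic, epimorphic, continuous,
preserves preimages -/
structure Good (F : CompHaus.{0} ⥤ CompHaus.{0}) : Prop where
  mono : ∀ {X Y : CompHaus.{0}} (f : X ⟶ Y), Function.Injective f → Function.Injective (F.map f)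
  epi : ∀ {X Y : CompHaus.{0}} (f : X ⟶ Y), Function.Surjective f → Function.Surjective (F.map f)
  cont : Cont F
  preim : ∀ {X Y X' Y' : CompHaus.{0}} (f : X ⟶ Y) (f' : X' ⟶ Y') (pX : X' ⟶ X) (pY : Y' ⟶ Y),
    Function.Injective f → Function.Injective f' → Bicomm f f' pX pY →
      Bicomm (F.map f) (F.map f') (F.map pX) (F.map pY)

/-- `F` is finitely square-skeletal -/
def FinSqSkel (F : CompHaus.{0} ⥤ CompHaus.{0}) : Prop :=
  ∀ {X Y X' Y' : CompHaus.{0}} [Finite X] [Finite Y] [Finite X'] [Finite Y']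
    (f : X ⟶ Y) (f' : X' ⟶ Y') (pX : X' ⟶ X) (pY : Y' ⟶ Y),
    Function.Surjective f → Function.Surjective f' → Function.Surjective pX →
      Function.Surjective pY → SkelSq f f' pX pY →
        SkelSq (F.map f) (F.map f') (F.map pX) (F.map pY)

end Pool.Agent.X128.SK
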