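import Pool.Agent.X128.SK.Defs

/-!
# Gleason covers
-/

set_option autoImplicit false

namespace Pool.Agent.X128.SK

open Set Function Topology

/-- irreducible map -/
def Irred {E Y : Type} [TopologicalSpace E] (p : E → Y) : Prop :=
  ∀ C : Set E, IsClosed C → p '' C = univ → C = univ

lemma Irred.id {E Y : Type} [TopologicalSpace E] [T2Space E] {p : E → Y} (hp : Irred p)
    (hs : Surjective p) {g : E → E} (hg : Continuous g) (h : ∀ e, p (g e) = p e) : ∀ e, g e = e := by
  intro e
  by_contra hne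
  obtain ⟨U, V, hU, hV, hgU, heV, hUV⟩ := t2_separation hne
  set W : Set E := V ∩ g ⁻¹' U with hW
  have hWo : IsOpen W := hV.inter (hU.preimage hg)
  have h1 : p '' Wᶜ = univ := by
    refine eq_univ_of_forall fun y => ?_
    obtain ⟨x, rfl⟩ := hs y
    by_cases hx : x ∈ W
    · refine ⟨g x, ?_, h x⟩
      intro hgx
      exact Set.disjoint_left.mp hUV hx.2 hgx.1
    · exact ⟨x, hx, rfl⟩
  have h2 := hp _ hWo.isClosed_compl h1
  have h3 : e ∈ Wᶜ := by rw [h2]; trivial
  exact h3 ⟨heV, hgU⟩

theorem gleason (Y : Type) [TopologicalSpace Y] [CompactSpace Y] [T2Space Y] :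
    ∃ (E : Type) (_ : TopologicalSpace E) (_ : CompactSpace E) (_ : T2Space E)
      (_ : ExtremallyDisconnected E) (p : E → Y), Continuous p ∧ Surjective p ∧ Irred p := by
  let _ : TopologicalSpace (ULift.{0} Y) := ⊥
  have _ : DiscreteTopology (ULift.{0} Y) := ⟨rfl⟩
  let D := StoneCech (ULift.{0} Y)
  let u : ULift.{0} Y → Y := ULift.down
  have hu : Continuous u := continuous_of_discreteTopology
  let q : D → Y := stoneCechExtend hu
  have hq : Continuous q := continuous_stoneCechExtend hu
  have hqs : Surjective q := by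
    intro y
    refine ⟨stoneCechUnit (ULift.up y), ?_⟩
    have := congrFun (stoneCechExtend_extends hu) (ULift.up y)
    exact this
  obtain ⟨E, hE, hE1, hE2⟩ := exists_compact_surjective_zorn_subset hq hqs
  have hps : Surjective (fun e : E => q e) := by
    intro y
    have : y ∈ q '' E := by rw [hE1]; trivial
    obtain ⟨e, he, rfl⟩ := this
    exact ⟨⟨e, he⟩, rfl⟩
  have hpc : Continuous (fun e : E => q e) := hq.comp continuous_subtype_val
  have hirr : Irred (fun e : E => q e) := by
    intro C hC h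
    by_contra hne
    exact hE2 C hne hC h
  obtain ⟨g, hg, hgq⟩ := (StoneCech.projective (X := ULift.{0} Y)) hq hpc hps
  have hid : ∀ e : E, g e = e := hirr.id hps (g := fun e : E => g e)
    (hg.comp continuous_subtype_val) (fun e => congrFun hgq e)
  have hproj : CompactT2.Projective E := by
    intro A Z _ _ _ _ _ _ f k hf hk hks
    obtain ⟨h, hh, hh2⟩ := (StoneCech.projective (X := ULift.{0} Y)) (hf.comp hg) hk hks
    refine ⟨fun e => h e, hh.comp continuous_subtype_val, ?_⟩
    funext e
    have h1 := congrFun hh2 (e : D)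
    change k (h e) = f (g e) at h1
    change k (h e) = f e
    rw [h1, hid]
  exact ⟨E, inferInstance, hE, inferInstance, hproj.extremallyDisconnected, fun e => q e, hpc, hps, hirr⟩

/-- an irreducible map sends open sets to sets with non-empty interior -/
lemma Irred.int {E Y : Type} [TopologicalSpace E] [TopologicalSpace Y] [CompactSpace E] [T2Space Y]
    {p : E → Y} (hp : Irred p) (hc : Continuous p) {U : Set E} (hU : IsOpen U) (hne : U.Nonempty) :
    ∃ V : Set Y, IsOpen V ∧ V.Nonempty ∧ p ⁻¹' V ⊆ U := by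
  refine ⟨(p '' Uᶜ)ᶜ, (hU.isClosed_compl.isCompact.image hc).isClosed.isOpen_compl, ?_, ?_⟩
  · by_contra hcon
    rw [Set.not_nonempty_iff_eq_empty, Set.compl_empty_iff] at hcon
    have := hp _ hU.isClosed_compl hcon
    rw [Set.compl_univ_iff] at this
    exact hne.ne_empty this
  · intro x hx
    by_contra hxU
    exact hx ⟨x, hxU, rfl⟩

theorem cover {X Y : Type} [TopologicalSpace X] [CompactSpace X] [T2Space X] [TopologicalSpace Y]
    [CompactSpace Y] [T2Space Y] (f : X → Y) (hf : Continuous f) (hfo : IsOpenMap f)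
    (hfs : Surjective f) :
    ∃ (E : Type) (_ : TopologicalSpace E) (_ : CompactSpace E) (_ : T2Space E)
      (_ : ExtremallyDisconnected E) (p : E → Y)
      (G : Type) (_ : TopologicalSpace G) (_ : CompactSpace G) (_ : T2Space G)
      (_ : ExtremallyDisconnected G) (r : G → X) (f' : G → E),
      Continuous p ∧ Surjective p ∧ Irred p ∧ Continuous r ∧ Surjective r ∧ Continuous f' ∧
      IsOpenMap f' ∧ Surjective f' ∧ ∀ g, f (r g) = p (f' g) := by
  obtain ⟨E, i1, i2, i3, i4, p, hp, hps, hpi⟩ := gleason Y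
  let Q : Set (X × E) := {z | f z.1 = p z.2}
  have hQ : IsClosed Q := isClosed_eq (hf.comp continuous_fst) (hp.comp continuous_snd)
  have _ : CompactSpace Q := isCompact_iff_compactSpace.mp hQ.isCompact
  obtain ⟨G, j1, j2, j3, j4, q, hq, hqs, hqi⟩ := gleason Q
  let f' : G → E := fun g => (q g : X × E).2
  have hf'c : Continuous f' := (continuous_snd.comp continuous_subtype_val).comp hq
  have hsk : ∀ U : Set G, IsOpen U → U.Nonempty → ∃ V : Set E, IsOpen V ∧ V.Nonempty ∧ V ⊆ f' '' U := by
    intro U hU hne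
    obtain ⟨V, hV, hVne, hVU⟩ := hqi.int hq hU hne
    obtain ⟨O, hO, rfl⟩ := isOpen_induced_iff.mp hV
    obtain ⟨⟨⟨x, e⟩, hxe⟩, hz⟩ := hVne
    obtain ⟨A, B, hA, hB, hxA, heB, hAB⟩ := isOpen_prod_iff.mp hO x e hz
    refine ⟨B ∩ p ⁻¹' (f '' A), hB.inter ((hfo A hA).preimage hp), ⟨e, heB, x, hxA, hxe⟩, ?_⟩
    rintro e' ⟨he', x', hx', hxe'⟩
    have hmem : ((x', e') : X × E) ∈ O := hAB ⟨hx', he'⟩
    obtain ⟨g, hg⟩ := hqs ⟨(x', e'), hxe'⟩
    refine ⟨g, hVU ?_, ?_⟩
    · change (q g : X × E) ∈ O
      rw [hg]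
      exact hmem
    · change (q g : X × E).2 = e'
      rw [hg]
  have hopen : IsOpenMap f' := by
    -- images of clopen sets are clopen
    have hclo : ∀ U : Set G, IsClopen U → IsOpen (f' '' U) := by
      intro U hU
      have h1 : IsClosed (f' '' U) := (hU.1.isCompact.image hf'c).isClosed
      have h2 : f' '' U = closure (interior (f' '' U)) := by
        apply Subset.antisymm
        · by_contra hcon
          rw [Set.not_subset] at hcon
          obtain ⟨_, ⟨g, hg, rfl⟩, hg2⟩ := hcon
          obtain ⟨V, hV, hVne, hVU⟩ := hsk (U ∩ f' ⁻¹' (closure (interior (f' '' U)))ᶜ)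
            (hU.2.inter (isClosed_closure.isOpen_compl.preimage hf'c)) ⟨g, hg, hg2⟩
          obtain ⟨v, hv⟩ := hVne
          have h3 : v ∈ interior (f' '' U) :=
            mem_interior.mpr ⟨V, fun w hw => image_mono inter_subset_left (hVU hw), hV, hv⟩
          obtain ⟨g', hg', rfl⟩ := hVU hv
          exact hg'.2 (subset_closure h3)
        · exact closure_minimal interior_subset h1
      rw [h2]
      exact ExtremallyDisconnected.open_closure _ isOpen_interior
    intro U hU
    rw [isOpen_iff_mem_nhds]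
    rintro _ ⟨g, hg, rfl⟩
    obtain ⟨C, hC, hgC, hCU⟩ := compact_exists_isClopen_in_isOpen hU hg
    exact Filter.mem_of_superset ((hclo C hC).mem_nhds ⟨g, hgC, rfl⟩) (image_mono hCU)
  refine ⟨E, i1, i2, i3, i4, p, G, j1, j2, j3, j4, fun g => (q g : X × E).1, f', hp, hps, hpi,
    (continuous_fst.comp continuous_subtype_val).comp hq, ?_, hf'c, hopen, ?_, fun g => (q g).2⟩
  · intro x
    obtain ⟨e, he⟩ := hps (f x)
    obtain ⟨g, hg⟩ := hqs ⟨(x, e), he.symm⟩
    exact ⟨g, by simp only [hg]⟩
  · intro e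
    obtain ⟨x, hx⟩ := hfs (p e)
    obtain ⟨g, hg⟩ := hqs ⟨(x, e), hx⟩
    exact ⟨g, by change (q g : X × E).2 = e; rw [hg]⟩

end Pool.Agent.X128.SK
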