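import Pool.Agent.X128.SK.Zero
import Pool.Agent.X128.SK.Gleason

/-!
# Irreducible maps from zero-dimensional compacta
-/

set_option autoImplicit false

namespace Pool.Agent.X128.SK

open CategoryTheory CategoryTheory.Limits Set Topology Function

noncomputable section

section

variable {E Y : CompHaus.{0}} (p : E ⟶ Y)

/-- the image of `E` in `Y × P` -/
def YP (P : DiscreteQuotient E) : Set (Y × P) := range (fun e : E => ((p e, P.proj e) : Y × P))

lemma qc (P : DiscreteQuotient E) : Continuous (fun e : E => ((p e, P.proj e) : Y × P)) :=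
  Continuous.prodMk p.hom.hom.continuous P.proj_continuous

instance ypC (P : DiscreteQuotient E) : CompactSpace (YP p P) :=
  isCompact_iff_compactSpace.mp (isCompact_range (qc p P))

instance ypT (P : DiscreteQuotient E) : T2Space (YP p P) := inferInstance

/-- `Y_P` as a compactum -/
def YO (P : DiscreteQuotient E) : CompHaus.{0} := CompHaus.of (YP p P)

/-- `q_P` -/
def qP (P : DiscreteQuotient E) : E ⟶ YO p P :=
  CompHausLike.ofHom _ ⟨fun e => ⟨(p e, P.proj e), ⟨e, rfl⟩⟩, (qc p P).subtype_mk _⟩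

/-- `r_P` -/
def rP (P : DiscreteQuotient E) : YO p P ⟶ Y :=
  CompHausLike.ofHom _ ⟨fun z => z.1.1, continuous_fst.comp continuous_subtype_val⟩

lemma tP_mem {P' P : DiscreteQuotient E} (h : P' ≤ P) (z : YP p P') :
    ((z.1.1, DiscreteQuotient.ofLE h z.1.2) : Y × P) ∈ YP p P := by
  obtain ⟨z, e, rfl⟩ := z
  exact ⟨e, rfl⟩

lemma tP_cont {P' P : DiscreteQuotient E} (h : P' ≤ P) :
    Continuous (fun z : YP p P' => (⟨(z.1.1, DiscreteQuotient.ofLE h z.1.2), tP_mem p h z⟩ : YP p P)) :=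
  Continuous.subtype_mk (Continuous.prodMk (continuous_fst.comp continuous_subtype_val)
    ((DiscreteQuotient.ofLE_continuous h).comp (continuous_snd.comp continuous_subtype_val))) _

/-- transition maps -/
def tP {P' P : DiscreteQuotient E} (h : P' ≤ P) : YO p P' ⟶ YO p P :=
  CompHausLike.ofHom _ ⟨_, tP_cont p h⟩

lemma qP_surj (P : DiscreteQuotient E) : Surjective (qP p P) := by
  rintro ⟨z, e, rfl⟩
  exact ⟨e, rfl⟩

/-- the spectrum -/
def YD : DiscreteQuotient E ⥤ CompHaus.{0} where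
  obj P := YO p P
  map h := tP p (leOfHom h)
  map_id P := by
    ext z
    obtain ⟨e, rfl⟩ := qP_surj p P z
    rfl
  map_comp {P _ _} f g := by
    ext z
    obtain ⟨e, rfl⟩ := qP_surj p P z
    rfl

/-- its cone -/
def YC : Cone (YD p) where
  pt := E
  π :=
    { app := fun P => qP p P
      naturality := by
        intro i j h
        ext x
        rfl }

end

theorem irr_skel {F : CompHaus.{0} ⥤ CompHaus.{0}} (hF : Good F) {E Y : CompHaus.{0}}
    [TotallyDisconnectedSpace E] (p : E ⟶ Y) (hps : Surjective p) (hpi : Irred p)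
    {W : Set (F.obj E)} (hW : IsOpen W) (hWne : W.Nonempty) :
    ∃ V : Set (F.obj Y), IsOpen V ∧ V.Nonempty ∧ V ⊆ F.map p '' W := by
  have hpc : Continuous p := p.hom.hom.continuous
  have hsep : ∀ x y : E, (∀ P : DiscreteQuotient E, P.proj x = P.proj y) → x = y := by
    intro x y hxy
    by_contra hne
    obtain ⟨C, hC, hx, hy⟩ := sep_clopen (Z := E) hne
    have h2 : x ∈ C ↔ y ∈ C := Quotient.exact (hxy (DiscreteQuotient.ofIsClopen hC))
    exact hy (h2.mp hx)
  obtain ⟨z, hz⟩ := hWne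
  obtain ⟨P, O, hO, hzO, hOW⟩ := basis_F hF.cont (YD p) (YC p) (fun P => qP_surj p P)
    (fun x y hxy => hsep x y fun P => by
      have := congrArg (fun w => w.1.2) (hxy P)
      exact this) hW hz
  have hO2o : IsOpen ((F.map (qP p P)) ⁻¹' O) := hO.preimage (map_cont _)
  obtain ⟨Q, O₂, hO₂, hzO₂, hOW₂⟩ := basis_F hF.cont (QF E (fun P => P) monotone_id)
    (QC E (fun P => P) monotone_id) (QC_surj _ _ _) (fun x y hxy => hsep x y hxy) hO2o
    (show z ∈ (F.map (qP p P)) ⁻¹' O from hzO)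
  set R : DiscreteQuotient E := Q ⊓ P with hR
  have hRP : R ≤ P := inf_le_right
  have hRQ : R ≤ Q := inf_le_left
  have hex : ∀ c : R, ∃ e : E, ∀ e' : E, p e' = p e → R.proj e' = c := by
    intro c
    obtain ⟨V, hV, ⟨v, hv⟩, hVU⟩ := hpi.int hpc (R.isOpen_preimage {c})
      (by
        obtain ⟨e, he⟩ := R.proj_surjective c
        exact ⟨e, he⟩)
    obtain ⟨e, rfl⟩ := hps v
    refine ⟨e, fun e' he' => ?_⟩
    have : e' ∈ p ⁻¹' V := by
      rw [mem_preimage, he']
      exact hv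
    exact hVU this
  choose s hs using hex
  have hsR : ∀ c : R, R.proj (s c) = c := fun c => hs c (s c) rfl
  let RR : CompHaus.{0} := CompHaus.of R
  let sm : RR ⟶ E := CompHausLike.ofHom _ ⟨s, continuous_of_discreteTopology⟩
  let πR : E ⟶ RR := CompHausLike.ofHom _ ⟨R.proj, R.proj_continuous⟩
  let πQ : E ⟶ CompHaus.of Q := CompHausLike.ofHom _ ⟨Q.proj, Q.proj_continuous⟩
  let t : RR ⟶ Y := sm ≫ p
  let sq : RR ⟶ YO p P := sm ≫ qP p P
  have ht : Injective t := by
    intro c c' hcc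
    have h0 : p (s c) = p (s c') := hcc
    have h1 : R.proj (s c') = c := hs c (s c') h0.symm
    rw [hsR] at h1
    exact h1.symm
  have hsqr : sq ≫ rP p P = t := by
    ext c
    rfl
  have hsq : Injective sq := by
    intro c c' hcc
    apply ht
    have := congrArg (rP p P) hcc
    exact this
  have hbi : Bicomm t sq (𝟙 RR) (rP p P) := by
    refine ⟨by rw [Category.id_comp, hsqr], ?_⟩
    intro c
    ext w
    obtain ⟨e, rfl⟩ := qP_surj p P w
    constructor
    · rintro ⟨c', hc', hc2⟩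
      have hc3 : c' = c := hc'
      rw [mem_preimage, ← hc2, hc3]
      rfl
    · intro hw
      have h1 : p e = p (s c) := hw
      have h2 : R.proj e = c := hs c e h1
      refine ⟨c, rfl, ?_⟩
      apply Subtype.ext
      refine Prod.ext h1.symm ?_
      change P.proj (s c) = P.proj e
      have h3 : R.proj (s c) = R.proj e := by rw [hsR, h2]
      rw [← DiscreteQuotient.ofLE_proj hRP, ← DiscreteQuotient.ofLE_proj hRP, h3]
  obtain ⟨_, hFb⟩ := hF.preim t sq (𝟙 RR) (rP p P) ht hsq hbi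
  let u : F.obj RR := F.map πR z
  have huniq : ∀ a : F.obj (YO p P), F.map (rP p P) a = F.map t u → a = F.map sq u := by
    intro a ha
    have h1 : a ∈ (F.map (rP p P)) ⁻¹' {F.map t u} := ha
    rw [← hFb u] at h1
    obtain ⟨v, hv, hva⟩ := h1
    have hv2 : F.map (𝟙 RR) v = u := hv
    rw [F.map_id] at hv2
    have hv3 : v = u := hv2
    rw [← hva, hv3]
  have hru : F.map (rP p P) (F.map sq u) = F.map t u := by
    have h1 : F.map sq ≫ F.map (rP p P) = F.map t := by rw [← F.map_comp, hsqr]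
    exact congrArg (fun g => g u) h1
  have haO : F.map sq u ∈ O := by
    have h1 : πR ≫ sm ≫ πQ = πQ := by
      ext e
      change Q.proj (s (R.proj e)) = Q.proj e
      rw [← DiscreteQuotient.ofLE_proj hRQ, ← DiscreteQuotient.ofLE_proj hRQ, hsR]
    have h2 : F.map πQ (F.map sm u) = F.map πQ z := by
      have h3 : F.map πR ≫ F.map sm ≫ F.map πQ = F.map πQ := by
        rw [← F.map_comp, ← F.map_comp, h1]
      exact congrArg (fun g => g z) h3
    have h4 : F.map sm u ∈ (F.map ((QC E (fun P => P) monotone_id).π.app Q)) ⁻¹' O₂ := by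
      change F.map πQ (F.map sm u) ∈ O₂
      rw [h2]
      exact hzO₂
    have h5 : F.map (qP p P) (F.map sm u) ∈ O := hOW₂ h4
    have h6 : F.map sq u = F.map (qP p P) (F.map sm u) := by
      change F.map (sm ≫ qP p P) u = _
      rw [F.map_comp]
      rfl
    rw [h6]
    exact h5
  have hrs : Surjective (rP p P) := by
    intro y
    obtain ⟨e, rfl⟩ := hps y
    exact ⟨qP p P e, rfl⟩
  refine ⟨(F.map (rP p P) '' Oᶜ)ᶜ,
    (hO.isClosed_compl.isCompact.image (map_cont _)).isClosed.isOpen_compl, ⟨F.map t u, ?_⟩, ?_⟩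
  · rintro ⟨a, ha, ha2⟩
    apply ha
    rw [huniq a ha2]
    exact haO
  · intro v hv
    obtain ⟨x, rfl⟩ := hF.epi (rP p P) hrs v
    have hx : x ∈ O := by
      by_contra hx
      exact hv ⟨x, hx, rfl⟩
    obtain ⟨w, rfl⟩ := hF.epi (qP p P) (qP_surj p P) x
    refine ⟨w, hOW hx, ?_⟩
    have h1 : F.map (qP p P) ≫ F.map (rP p P) = F.map p := by
      rw [← F.map_comp]
      rfl
    exact (congrArg (fun g => g w) h1).symm

/-- **Main theorem.** -/
theorem main {F : CompHaus.{0} ⥤ CompHaus.{0}} (hF : Good F) (hs : FinSqSkel F)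
    {X Y : CompHaus.{0}} (f : X ⟶ Y) (hfo : IsOpenMap f) (hfs : Surjective f) : Skel (F.map f) := by
  have key : ∀ W : Set (F.obj X), IsOpen W → W.Nonempty →
      ∃ V : Set (F.obj Y), IsOpen V ∧ V.Nonempty ∧ V ⊆ F.map f '' W := by
    intro W hW hWne
    obtain ⟨E, i1, i2, i3, i4, p, G, j1, j2, j3, j4, r, f', hp, hps, hpi, hr, hrs, hf', hf'o, hf's,
      hcomm⟩ := cover (X := X) (Y := Y) f f.hom.hom.continuous hfo hfs
    let EE : CompHaus.{0} := CompHaus.of E
    let GG : CompHaus.{0} := CompHaus.of G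
    let pm : EE ⟶ Y := CompHausLike.ofHom _ ⟨p, hp⟩
    let rm : GG ⟶ X := CompHausLike.ofHom _ ⟨r, hr⟩
    let fm : GG ⟶ EE := CompHausLike.ofHom _ ⟨f', hf'⟩
    have hc : rm ≫ f = fm ≫ pm := by
      ext g
      exact hcomm g
    have tE : TotallyDisconnectedSpace EE := inferInstanceAs (TotallyDisconnectedSpace E)
    have tG : TotallyDisconnectedSpace GG := inferInstanceAs (TotallyDisconnectedSpace G)
    obtain ⟨w, hw⟩ := hWne
    obtain ⟨w', rfl⟩ := hF.epi rm hrs w
    obtain ⟨V₁, hV₁, hV₁ne, hV₁W⟩ := zero_dim hF hs fm hf'o hf's (hW.preimage (map_cont rm)) ⟨w', hw⟩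
    obtain ⟨V₂, hV₂, hV₂ne, hV₂W⟩ := irr_skel hF pm hps hpi hV₁ hV₁ne
    refine ⟨V₂, hV₂, hV₂ne, ?_⟩
    intro v hv
    obtain ⟨a, ha, rfl⟩ := hV₂W hv
    obtain ⟨b, hb, rfl⟩ := hV₁W ha
    refine ⟨F.map rm b, hb, ?_⟩
    have h1 : F.map rm ≫ F.map f = F.map fm ≫ F.map pm := by
      rw [← F.map_comp, ← F.map_comp, hc]
    exact congrArg (fun g => g b) h1
  intro A hA
  rw [IsNowhereDense, Set.eq_empty_iff_forall_notMem]
  intro x hx
  obtain ⟨V, hV, ⟨v, hv⟩, hVW⟩ := key (interior (closure (F.map f ⁻¹' A))) isOpen_interior ⟨x, hx⟩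
  have h1 : closure (F.map f ⁻¹' A) ⊆ F.map f ⁻¹' (closure A) :=
    closure_minimal (preimage_mono subset_closure) (isClosed_closure.preimage (map_cont f))
  have h2 : V ⊆ closure A := by
    intro y hy
    obtain ⟨a, ha, rfl⟩ := hVW hy
    exact h1 (interior_subset ha)
  have h3 : v ∈ interior (closure A) := mem_interior.mpr ⟨V, h2, hV, hv⟩
  rw [hA] at h3
  exact h3

end

end Pool.Agent.X128.SK
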