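import Pool.Agent.X128.SK.Defs

/-!
# Limits of inverse spectra, elementwise
-/

set_option autoImplicit false

namespace Pool.Agent.X128.SK

open CategoryTheory CategoryTheory.Limits Set Topology Function

variable {J : Type} [PartialOrder J] [Nonempty J] [IsCodirectedOrder J]

/-- a cone with surjective and jointly injective projections is a limit cone -/
theorem isLimit_of (D : J ⥤ CompHaus.{0}) (c : Cone D) (hs : ∀ j, Surjective (c.π.app j))
    (hi : ∀ x y : c.pt, (∀ j, c.π.app j x = c.π.app j y) → x = y) : Nonempty (IsLimit c) := by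
  have hL := CompHaus.limitConeIsLimit D
  have hfac : ∀ (j : J) (x : c.pt), (CompHaus.limitCone D).π.app j (hL.lift c x) = c.π.app j x := by
    intro j x
    have := hL.fac c j
    exact congrArg (fun f => f x) this
  have hbij : Bijective (hL.lift c) := by
    constructor
    · intro x y hxy
      apply hi
      intro j
      rw [← hfac, ← hfac, hxy]
    · intro z
      let T : J → Set c.pt := fun j => {x | c.π.app j x = (CompHaus.limitCone D).π.app j z}
      have hT : (⋂ j, T j).Nonempty := by
        apply IsCompact.nonempty_iInter_of_directed_nonempty_isCompact_isClosed T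
        · intro i j
          obtain ⟨k, hki, hkj⟩ := exists_le_le i j
          refine ⟨k, ?_, ?_⟩
          · intro x hx
            change c.π.app i x = _
            have e1 := congrArg (fun f => f x) (c.w (homOfLE hki))
            have e2 := congrArg (fun f => f z) ((CompHaus.limitCone D).w (homOfLE hki))
            have hx' : c.π.app k x = (CompHaus.limitCone D).π.app k z := hx
            rw [← e1, ← e2]
            change D.map _ (c.π.app k x) = D.map _ ((CompHaus.limitCone D).π.app k z)
            rw [hx']
          · intro x hx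
            change c.π.app j x = _
            have e1 := congrArg (fun f => f x) (c.w (homOfLE hkj))
            have e2 := congrArg (fun f => f z) ((CompHaus.limitCone D).w (homOfLE hkj))
            have hx' : c.π.app k x = (CompHaus.limitCone D).π.app k z := hx
            rw [← e1, ← e2]
            change D.map _ (c.π.app k x) = D.map _ ((CompHaus.limitCone D).π.app k z)
            rw [hx']
        · intro j
          obtain ⟨x, hx⟩ := hs j ((CompHaus.limitCone D).π.app j z)
          exact ⟨x, hx⟩
        · intro j
          exact (isClosed_eq (c.π.app j).hom.hom.continuous continuous_const).isCompact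
        · intro j
          exact isClosed_eq (c.π.app j).hom.hom.continuous continuous_const
      obtain ⟨x, hx⟩ := hT
      refine ⟨x, ?_⟩
      apply Subtype.ext
      funext j
      have h1 := hfac j x
      have h2 : c.π.app j x = (CompHaus.limitCone D).π.app j z := Set.mem_iInter.mp hx j
      rw [h2] at h1
      exact h1
  have : IsIso (hL.lift c) := CompHausLike.isIso_of_bijective _ hbij
  exact ⟨IsLimit.ofPointIso hL⟩

/-- the projections of a limit cone are jointly injective -/
theorem inj_of_isLimit {D : J ⥤ CompHaus.{0}} {c : Cone D} (h : IsLimit c) (x y : c.pt)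
    (hxy : ∀ j, c.π.app j x = c.π.app j y) : x = y := by
  let k : c.pt → (CompHaus.of PUnit ⟶ c.pt) := fun z => CompHausLike.ofHom _ (ContinuousMap.const _ z)
  have h1 : k x = k y := by
    apply h.hom_ext
    intro j
    ext u
    exact hxy j
  exact congrArg (fun f => f PUnit.unit) h1

theorem inj_F {F : CompHaus.{0} ⥤ CompHaus.{0}} (hF : Cont F) (D : J ⥤ CompHaus.{0}) (c : Cone D)
    (hs : ∀ j, Surjective (c.π.app j))
    (hi : ∀ x y : c.pt, (∀ j, c.π.app j x = c.π.app j y) → x = y) (x y : F.obj c.pt)
    (hxy : ∀ j, F.map (c.π.app j) x = F.map (c.π.app j) y) : x = y := by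
  obtain ⟨h⟩ := hF J D c (by
    intro i j h x
    obtain ⟨w, hw⟩ := hs j x
    refine ⟨c.π.app i w, ?_⟩
    rw [← c.w h] at hw
    exact hw) (isLimit_of D c hs hi)
  exact inj_of_isLimit h x y hxy

/-- basic open sets -/
theorem basis_F {F : CompHaus.{0} ⥤ CompHaus.{0}} (hF : Cont F) (D : J ⥤ CompHaus.{0}) (c : Cone D)
    (hs : ∀ j, Surjective (c.π.app j))
    (hi : ∀ x y : c.pt, (∀ j, c.π.app j x = c.π.app j y) → x = y) {W : Set (F.obj c.pt)}
    (hW : IsOpen W) {z : F.obj c.pt} (hz : z ∈ W) :
    ∃ j, ∃ O : Set (F.obj (D.obj j)), IsOpen O ∧ F.map (c.π.app j) z ∈ O ∧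
      (F.map (c.π.app j)) ⁻¹' O ⊆ W := by
  by_contra hcon
  push Not at hcon
  let T : J → Set (F.obj c.pt) := fun j => {x | F.map (c.π.app j) x = F.map (c.π.app j) z} ∩ Wᶜ
  have hTc : ∀ j, IsClosed (T j) := fun j =>
    (isClosed_eq (F.map (c.π.app j)).hom.hom.continuous continuous_const).inter hW.isClosed_compl
  have hT : (⋂ j, T j).Nonempty := by
    apply IsCompact.nonempty_iInter_of_directed_nonempty_isCompact_isClosed T
    · have key : ∀ i k, k ≤ i → T k ⊆ T i := by
        rintro i k hki x ⟨hx, hx2⟩
        refine ⟨?_, hx2⟩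
        have e1 : ∀ w, F.map (c.π.app i) w = F.map (D.map (homOfLE hki)) (F.map (c.π.app k) w) := by
          intro w
          rw [← c.w (homOfLE hki), F.map_comp]
          rfl
        change F.map (c.π.app i) x = F.map (c.π.app i) z
        rw [e1, e1]
        exact congrArg _ hx
      intro i j
      obtain ⟨k, hki, hkj⟩ := exists_le_le i j
      exact ⟨k, key i k hki, key j k hkj⟩
    · intro j
      by_contra hne
      rw [Set.not_nonempty_iff_eq_empty] at hne
      refine hcon j ((F.map (c.π.app j)) '' Wᶜ)ᶜ
        (hW.isClosed_compl.isCompact.image (F.map (c.π.app j)).hom.hom.continuous).isClosed.isOpen_compl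
        ?_ ?_
      · rintro ⟨x, hx, hx2⟩
        have : x ∈ T j := ⟨hx2, hx⟩
        rw [hne] at this
        exact this
      · intro x hx
        by_contra hxW
        exact hx ⟨x, hxW, rfl⟩
    · exact fun j => (hTc j).isCompact
    · exact hTc
  obtain ⟨x, hx⟩ := hT
  rw [Set.mem_iInter] at hx
  have h1 : x = z := inj_F hF D c hs hi x z fun j => (hx j).1
  obtain ⟨j⟩ := ‹Nonempty J›
  exact (hx j).2 (h1 ▸ hz)

end Pool.Agent.X128.SK
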