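import Pool.Agent.X128.SK.Arg

/-!
# The zero-dimensional case
-/

set_option autoImplicit false

namespace Pool.Agent.X128.SK

open CategoryTheory CategoryTheory.Limits Set Topology Function

noncomputable section

instance dqT2 {Z : Type} [TopologicalSpace Z] (S : DiscreteQuotient Z) : T2Space S := inferInstance

instance dqC {Z : Type} [TopologicalSpace Z] [CompactSpace Z] (S : DiscreteQuotient Z) :
    CompactSpace S := inferInstance

/-- the spectrum of discrete quotients -/
def QF (Z : CompHaus.{0}) {J : Type} [Preorder J] (φ : J → DiscreteQuotient Z) (hφ : Monotone φ) :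
    J ⥤ CompHaus.{0} where
  obj j := CompHaus.of (φ j)
  map h := CompHausLike.ofHom _ ⟨DiscreteQuotient.ofLE (hφ (leOfHom h)),
    DiscreteQuotient.ofLE_continuous _⟩
  map_id j := by
    ext x
    exact DiscreteQuotient.ofLE_refl_apply (A := φ j) x
  map_comp {i _ _} f g := by
    ext x
    obtain ⟨z, rfl⟩ := (φ i).proj_surjective x
    rfl

/-- its cone -/
def QC (Z : CompHaus.{0}) {J : Type} [Preorder J] (φ : J → DiscreteQuotient Z) (hφ : Monotone φ) :
    Cone (QF Z φ hφ) where
  pt := Z
  π :=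
    { app := fun j => CompHausLike.ofHom _ ⟨(φ j).proj, (φ j).proj_continuous⟩
      naturality := by
        intro i j h
        ext x
        rfl }

lemma QC_surj (Z : CompHaus.{0}) {J : Type} [Preorder J] (φ : J → DiscreteQuotient Z)
    (hφ : Monotone φ) (j : J) : Surjective ((QC Z φ hφ).π.app j) := (φ j).proj_surjective

lemma sep_clopen {Z : Type} [TopologicalSpace Z] [CompactSpace Z] [T2Space Z]
    [TotallyDisconnectedSpace Z] {x y : Z} (h : x ≠ y) : ∃ C : Set Z, IsClopen C ∧ x ∈ C ∧ y ∉ C := by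
  obtain ⟨C, hC, hx, hCy⟩ := compact_exists_isClopen_in_isOpen (isOpen_compl_singleton (x := y))
    (show x ∈ ({y} : Set Z)ᶜ from h)
  exact ⟨C, hC, hx, fun hy => hCy hy rfl⟩

section

variable {X Y : Type} [TopologicalSpace X] [CompactSpace X] [T2Space X] [TopologicalSpace Y]
  [CompactSpace Y] [T2Space Y] (f : X → Y) (hf : Continuous f) (hfo : IsOpenMap f)

/-- the trace of the fibre -/
def chi (S : DiscreteQuotient X) (y : Y) : Set S := S.proj '' (f ⁻¹' {y})

lemma mem_chi (S : DiscreteQuotient X) (y : Y) (c : S) : c ∈ chi f S y ↔ y ∈ f '' (S.proj ⁻¹' {c}) := by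
  constructor
  · rintro ⟨x, hx, rfl⟩
    exact ⟨x, rfl, hx⟩
  · rintro ⟨x, hx, rfl⟩
    exact ⟨x, rfl, hx⟩

/-- the partition of `Y` by the traces of the fibres -/
def TS (S : DiscreteQuotient X) : DiscreteQuotient Y where
  toSetoid := Setoid.ker (chi f S)
  isOpen_setOfPred_rel y := by
    have h1 : (Set.ofPred ((Setoid.ker (chi f S)) y)) = ⋂ c : S, {y' | c ∈ chi f S y' ↔ c ∈ chi f S y} := by
      ext y'
      rw [mem_iInter]
      change chi f S y = chi f S y' ↔ _
      rw [Set.ext_iff]
      exact forall_congr' fun c => Iff.comm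
    rw [h1]
    apply isOpen_iInter_of_finite
    intro c
    have hcl : IsClopen (f '' (S.proj ⁻¹' {c})) :=
      ⟨((S.isClosed_preimage _).isCompact.image hf).isClosed, hfo _ (S.isOpen_preimage _)⟩
    by_cases hc : c ∈ chi f S y
    · have : {y' | c ∈ chi f S y' ↔ c ∈ chi f S y} = f '' (S.proj ⁻¹' {c}) := by
        ext y'
        rw [← mem_chi]
        exact iff_true_right hc
      rw [this]
      exact hcl.2
    · have : {y' | c ∈ chi f S y' ↔ c ∈ chi f S y} = (f '' (S.proj ⁻¹' {c}))ᶜ := by
        ext y'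
        rw [mem_compl_iff, ← mem_chi]
        exact iff_false_right hc
      rw [this]
      exact hcl.1.isOpen_compl

lemma TS_rel (S : DiscreteQuotient X) (y y' : Y) :
    (TS f hf hfo S).proj y = (TS f hf hfo S).proj y' ↔ chi f S y = chi f S y' := by
  constructor
  · intro h
    exact Quotient.exact h
  · intro h
    exact Quotient.sound h

lemma chi_mono {S S' : DiscreteQuotient X} (h : S' ≤ S) (y : Y) :
    chi f S y = DiscreteQuotient.ofLE h '' chi f S' y := by
  unfold chi
  rw [image_image]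
  rfl

lemma TS_mono : Monotone (TS f hf hfo) := by
  intro S' S h y y' hyy
  have h1 : chi f S' y = chi f S' y' := hyy
  change chi f S y = chi f S y'
  rw [chi_mono f h, chi_mono f h, h1]

/-- the refined partition of `X` -/
def SS (S : DiscreteQuotient X) : DiscreteQuotient X :=
  S ⊓ (TS f hf hfo S).comap ⟨f, hf⟩

lemma SS_rel (S : DiscreteQuotient X) (x x' : X) :
    (SS f hf hfo S).proj x = (SS f hf hfo S).proj x' ↔
      S.proj x = S.proj x' ∧ chi f S (f x) = chi f S (f x') := by
  constructor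
  · intro h
    have h1 := Quotient.exact h
    exact ⟨Quotient.sound h1.1, h1.2⟩
  · intro h
    exact Quotient.sound ⟨Quotient.exact h.1, h.2⟩

lemma SS_mono : Monotone (SS f hf hfo) := by
  intro S' S h
  exact inf_le_inf h (DiscreteQuotient.comap_mono _ (TS_mono f hf hfo h))

/-- the map between the partitions -/
def fS (S : DiscreteQuotient X) : SS f hf hfo S → TS f hf hfo S :=
  DiscreteQuotient.map ⟨f, hf⟩ (inf_le_right : SS f hf hfo S ≤ (TS f hf hfo S).comap ⟨f, hf⟩)

lemma fS_proj (S : DiscreteQuotient X) (x : X) :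
    fS f hf hfo S ((SS f hf hfo S).proj x) = (TS f hf hfo S).proj (f x) := rfl

end

theorem zero_dim {F : CompHaus.{0} ⥤ CompHaus.{0}} (hF : Good F) (hs : FinSqSkel F)
    {X Y : CompHaus.{0}} [TotallyDisconnectedSpace X] [TotallyDisconnectedSpace Y] (f : X ⟶ Y)
    (hfo : IsOpenMap f) (hfs : Surjective f) {W : Set (F.obj X)} (hW : IsOpen W)
    (hWne : W.Nonempty) : ∃ V : Set (F.obj Y), IsOpen V ∧ V.Nonempty ∧ V ⊆ F.map f '' W := by
  have hf : Continuous f := f.hom.hom.continuous
  refine lim_arg (J := DiscreteQuotient X) hF hs (QF X (SS f hf hfo) (SS_mono f hf hfo))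
    (QF Y (TS f hf hfo) (TS_mono f hf hfo)) (QC X (SS f hf hfo) (SS_mono f hf hfo))
    (QC Y (TS f hf hfo) (TS_mono f hf hfo)) (QC_surj _ _ _) ?_ (QC_surj _ _ _) ?_
    (fun S => CompHausLike.ofHom _ ⟨fS f hf hfo S, DiscreteQuotient.map_continuous _⟩) f ?_ ?_ ?_ ?_ ?_
    hW hWne
  · intro x y hxy
    by_contra hne
    obtain ⟨C, hC, hx, hy⟩ := sep_clopen (Z := X) hne
    have h1 := (SS_rel f hf hfo (DiscreteQuotient.ofIsClopen hC) x y).mp (hxy _)
    have h2 : x ∈ C ↔ y ∈ C := Quotient.exact h1.1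
    exact hy (h2.mp hx)
  · intro x y hxy
    by_contra hne
    obtain ⟨C, hC, hx, hy⟩ := sep_clopen (Z := Y) hne
    have hC' : IsClopen (f ⁻¹' C) := hC.preimage hf
    have h1 := (TS_rel f hf hfo (DiscreteQuotient.ofIsClopen hC') x y).mp (hxy _)
    obtain ⟨x', hx'⟩ := hfs x
    have h2 : (DiscreteQuotient.ofIsClopen hC').proj x' ∈
      chi f (DiscreteQuotient.ofIsClopen hC') x := ⟨x', hx', rfl⟩
    rw [h1] at h2
    obtain ⟨y', hy', hy2⟩ := h2
    have h3 : y' ∈ f ⁻¹' C ↔ x' ∈ f ⁻¹' C := Quotient.exact hy2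
    have hy3 : f y' = y := hy'
    apply hy
    have h4 : x' ∈ f ⁻¹' C := by
      rw [mem_preimage, hx']
      exact hx
    have h5 := h3.mpr h4
    rw [mem_preimage, hy3] at h5
    exact h5
  · intro S
    rfl
  · intro S
    exact (inferInstance : Finite (SS f hf hfo S))
  · intro S
    exact (inferInstance : Finite (TS f hf hfo S))
  · intro S c
    obtain ⟨y, rfl⟩ := (TS f hf hfo S).proj_surjective c
    obtain ⟨x, rfl⟩ := hfs y
    exact ⟨(SS f hf hfo S).proj x, rfl⟩
  · intro S' S h
    refine ⟨?_, ?_⟩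
    · ext c
      obtain ⟨x, rfl⟩ := (SS f hf hfo S').proj_surjective c
      rfl
    · intro c U hU
      obtain ⟨x, rfl⟩ := (SS f hf hfo S).proj_surjective c
      have hxU := mem_of_mem_nhds hU
      have hfin : Finite (TS f hf hfo S) := inferInstance
      refine ⟨{(TS f hf hfo S).proj (f x)}, ?_, singleton_nonempty _, ?_, ?_⟩
      · exact fin_open (X := TS f hf hfo S) _
      · rintro _ rfl
        exact ⟨(SS f hf hfo S).proj x, hxU, rfl⟩
      · intro d hd
        obtain ⟨y, rfl⟩ := (TS f hf hfo S').proj_surjective d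
        have h1 : (TS f hf hfo S).proj y = (TS f hf hfo S).proj (f x) := hd
        rw [TS_rel] at h1
        have h2 : S.proj x ∈ chi f S (f x) := ⟨x, rfl, rfl⟩
        rw [← h1] at h2
        obtain ⟨x', hx', hx2⟩ := h2
        have hx3 : f x' = y := hx'
        refine ⟨(SS f hf hfo S').proj x', ?_, ?_⟩
        · have h4 : (SS f hf hfo S).proj x' = (SS f hf hfo S).proj x := by
            rw [SS_rel]
            exact ⟨hx2, by rw [hx3, h1]⟩
          change (SS f hf hfo S).proj x' ∈ U
          rw [h4]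
          exact hxU
        · change (TS f hf hfo S').proj (f x') = _
          rw [hx3]

end

end Pool.Agent.X128.SK
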